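import Pool.Agent.H793R2.TC.Ray

set_option autoImplicit false
open MeasureTheory Filter Topology Metric Set
open Pool.Agent.Helper949.TB

namespace Pool.Agent.H793R2.TC

set_option linter.unusedVariables false
set_option linter.unusedSimpArgs false

variable {N : ℕ}

theorem raySet_one {Ω : Set (E N)} {a : E N → ℝ} (ha : IsTest Ω a) (ha0 : a ≠ 0) {c : ℝ}
    (hca : ∫ x, ‖fderiv ℝ a x‖ ^ 2 ≤ c * ∫ x, a x ^ 2) : c ∈ RaySet N 1 Ω := by
  refine ⟨Submodule.span ℝ {a}, finrank_span_singleton ha0, ?_⟩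
  intro v hv
  obtain ⟨s, rfl⟩ := Submodule.mem_span_singleton.1 hv
  have hda : Differentiable ℝ a := ha.1.differentiable (by simp)
  have hfd : ∀ x, fderiv ℝ (s • a) x = s • fderiv ℝ a x := fun x => fderiv_const_smul (hda x) _
  refine ⟨ha.1.const_smul s, ha.2.1.smul_left (f := fun _ => s), (tsupport_smul_subset_right (fun _ => s) a).trans ha.2.2, ?_⟩
  have e1 : ∀ x, ‖fderiv ℝ (s • a) x‖ ^ 2 = s ^ 2 * ‖fderiv ℝ a x‖ ^ 2 := fun x => by
    rw [hfd, norm_smul, mul_pow, Real.norm_eq_abs, sq_abs]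
  have e2 : ∀ x, (s • a) x ^ 2 = s ^ 2 * a x ^ 2 := fun x => by simp [mul_pow]
  simp only [e1, e2, integral_const_mul]
  have h1 := mul_le_mul_of_nonneg_left hca (sq_nonneg s)
  linarith

theorem raySet_one_elim {Ω : Set (E N)} {c : ℝ} (hc : c ∈ RaySet N 1 Ω) :
    ∃ a : E N → ℝ, IsTest Ω a ∧ a ≠ 0 ∧ ∫ x, ‖fderiv ℝ a x‖ ^ 2 ≤ c * ∫ x, a x ^ 2 := by
  obtain ⟨V, hV, hv⟩ := hc
  obtain ⟨⟨a, haV⟩, ha0, -⟩ := finrank_eq_one_iff'.1 hV
  obtain ⟨h1, h2, h3, h4⟩ := hv a haV
  refine ⟨a, ⟨h1, h2, h3⟩, ?_, h4⟩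
  intro h; apply ha0; exact Subtype.ext h

theorem raySet_translate {k : ℕ} {Ω : Set (E N)} {c : ℝ} (q : E N) (hc : c ∈ RaySet N k Ω) :
    c ∈ RaySet N k ((fun x : E N => x + q) '' Ω) := by
  obtain ⟨V, hV, hV'⟩ := hc
  let T : (E N → ℝ) ≃ₗ[ℝ] (E N → ℝ) :=
    LinearEquiv.funCongrLeft ℝ ℝ ((Equiv.addRight (-q) : E N ≃ E N))
  have hT : ∀ v, T v = fun x => v (x - q) := by
    intro v; funext x
    simp [T, LinearEquiv.funCongrLeft, LinearMap.funLeft, sub_eq_add_neg]
  refine ⟨V.map (T : (E N → ℝ) →ₗ[ℝ] (E N → ℝ)), ?_, ?_⟩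
  · rw [← hV]
    exact LinearEquiv.finrank_map_eq T V
  · rintro _ ⟨v, hv, rfl⟩
    obtain ⟨h1, h2, h3, h4⟩ := hV' v hv
    have e : (T : (E N → ℝ) →ₗ[ℝ] (E N → ℝ)) v = fun x => v (x - q) := hT v
    rw [e]
    refine ⟨h1.comp (contDiff_id.sub contDiff_const), h2.comp_homeomorph (Homeomorph.subRight q), ?_, ?_⟩
    · intro x hx
      have h5 : tsupport (fun x => v (x - q)) = (Homeomorph.subRight q) ⁻¹' tsupport v :=
        tsupport_comp_eq_preimage v (Homeomorph.subRight q)
      rw [h5] at hx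
      refine ⟨x - q, h3 hx, by simp⟩
    · have h6 : ∀ x, fderiv ℝ (fun x => v (x - q)) x = fderiv ℝ v (x - q) := fun x => fderiv_comp_sub q
      simp only [h6]
      rw [integral_sub_right_eq_self (fun x => ‖fderiv ℝ v x‖ ^ 2) q, integral_sub_right_eq_self (fun x => v x ^ 2) q]
      exact h4

/-- expansion of the quadratic form -/
theorem B_expand {u φ : E N → ℝ} (hu : ContDiff ℝ (⊤ : ℕ∞) u) (huc : HasCompactSupport u)
    (hφ : ContDiff ℝ (⊤ : ℕ∞) φ) (hφc : HasCompactSupport φ) (τ : ℝ) :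
    B (fun x => u x + τ * φ x) (fun x => u x + τ * φ x) = B u u + 2 * τ * B u φ + τ ^ 2 * B φ φ := by
  have hgc : ∀ {v : E N → ℝ}, ContDiff ℝ (⊤ : ℕ∞) v → Continuous (fun x => gradient v x) := by
    intro v hv
    unfold gradient
    exact (LinearIsometryEquiv.continuous _).comp (hv.continuous_fderiv (by simp))
  have hgs : ∀ {v : E N → ℝ}, HasCompactSupport v → HasCompactSupport (fun x => gradient v x) := by
    intro v hv
    have := hv.fderiv (𝕜 := ℝ)
    unfold gradient
    exact this.comp_left (g := fun A => (InnerProductSpace.toDual ℝ (E N)).symm A) (by simp)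
  have hint : ∀ {f g : E N → ℝ}, ContDiff ℝ (⊤ : ℕ∞) f → HasCompactSupport f → ContDiff ℝ (⊤ : ℕ∞) g →
      Integrable (fun x => (inner ℝ (gradient f x) (gradient g x) - f x * g x : ℝ)) := by
    intro f g hf hfc hg
    apply Integrable.sub
    · apply Continuous.integrable_of_hasCompactSupport ((hgc hf).inner (hgc hg))
      refine HasCompactSupport.intro (hgs hfc) fun x hx => ?_
      rw [image_eq_zero_of_notMem_tsupport hx]; simp
    · exact (hf.continuous.mul hg.continuous).integrable_of_hasCompactSupport hfc.mul_right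
  have hg : ∀ x, gradient (fun x => u x + τ * φ x) x = gradient u x + τ • gradient φ x := by
    intro x
    unfold gradient
    rw [fderiv_fun_add (hu.differentiable (by simp) x) ((hφ.differentiable (by simp) x).const_mul τ),
      fderiv_const_mul (hφ.differentiable (by simp) x), map_add, map_smul]
  unfold B
  have hpt : ∀ x, (inner ℝ (gradient (fun x => u x + τ * φ x) x) (gradient (fun x => u x + τ * φ x) x) -
      (u x + τ * φ x) * (u x + τ * φ x) : ℝ) =
      (inner ℝ (gradient u x) (gradient u x) - u x * u x) + 2 * τ * (inner ℝ (gradient u x) (gradient φ x) - u x * φ x)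
      + τ ^ 2 * (inner ℝ (gradient φ x) (gradient φ x) - φ x * φ x) := by
    intro x
    rw [hg, inner_add_left, inner_add_right, inner_add_right, real_inner_smul_left, real_inner_smul_left,
      real_inner_smul_right, real_inner_smul_right, real_inner_comm (gradient φ x) (gradient u x)]
    have : inner ℝ (gradient φ x) (gradient u x) = inner ℝ (gradient u x) (gradient φ x) := real_inner_comm _ _
    rw [this]
    ring
  simp only [hpt]
  have i1 := hint hu huc hu
  have i2 := (hint hu huc hφ).const_mul (2 * τ)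
  have i3 := (hint hφ hφc hφ).const_mul (τ ^ 2)
  have j12 := i1.add i2
  have e1 := integral_add j12 i3
  have e2 := integral_add i1 i2
  simp only [Pi.add_apply] at e1
  rw [e1, e2, integral_const_mul, integral_const_mul]

/-- the bump at the boundary of the ball decreases the first eigenvalue at order `ε ^ N` -/
theorem bump_ray (hN : 2 ≤ N) (F : ℝ → ℝ) (R : ℝ) (hG : Ground N F R) (ω : E N) (hω : ‖ω‖ = 1) :
    ∃ g : ℝ, 0 < g ∧ ∀ᶠ ε in 𝓝[>] (0 : ℝ), 1 - g * ε ^ N ∈ RaySet N 1 (ball (0 : E N) R ∪ ball (R • ω) ε) := by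
  have hR := hG.Rpos
  have : NeZero N := ⟨by omega⟩
  obtain ⟨β, hβ, hb⟩ := b_asymp N hN F R hG ω hω
  set D1 : ℝ := ∫ x : E N, ‖fderiv ℝ (phi : E N → ℝ) x‖ ^ 2 with hD1
  have hD1pos : 0 < D1 := phi_grad_pos N (by omega)
  set t : ℝ := β / (2 * D1) with ht
  have htpos : 0 < t := by positivity
  set γ : ℝ := β ^ 2 / (4 * D1) with hγ
  have hγpos : 0 < γ := by positivity
  set K0 : ℝ := (volume (ball (0 : E N) (R + 1))).toReal with hK0
  have hfin : volume (ball (0 : E N) (R + 1)) ≠ ⊤ := measure_ball_lt_top.ne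
  have hK0pos : 0 < K0 := ENNReal.toReal_pos (measure_ball_pos _ _ (by linarith)).ne' hfin
  refine ⟨γ / (8 * K0), by positivity, ?_⟩
  have e2 : ∀ᶠ ε in 𝓝[>] (0 : ℝ), ε < min 1 (1 / t) := by
    apply mem_nhdsWithin_of_mem_nhds
    exact Iio_mem_nhds (by positivity)
  filter_upwards [hb, e2, self_mem_nhdsWithin] with ε hbε hε2 hεpos
  have hεpos' : 0 < ε := hεpos
  have hε1 : ε < 1 := lt_of_lt_of_le hε2 (min_le_left _ _)
  have hεt : ε < 1 / t := lt_of_lt_of_le hε2 (min_le_right _ _)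
  have hεN : 0 < ε ^ N := by positivity
  obtain ⟨u, hu, hrad, h01, hu0, huu, huφ⟩ := approx N hN F R hG
  obtain ⟨hφs, hφc, hφt, hφ01⟩ := phie_facts N ε hεpos' (R • ω)
  have a1 : ∀ᶠ n in atTop, B (u n) (u n) < γ / 2 * ε ^ N :=
    huu.eventually_lt_const (by positivity)
  have a2 : ∀ᶠ n in atTop, B (u n) (phie ε (R • ω)) < -(β / 2) * ε ^ (N - 1) := by
    apply (huφ _ hφs hφc).eventually_lt_const
    refine lt_of_le_of_lt hbε ?_
    have : 0 < ε ^ (N - 1) := by positivity
    nlinarith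
  obtain ⟨n, hn1, hn2⟩ := (a1.and a2).exists
  set D : ℝ := ε ^ N * ε⁻¹ ^ 2 * D1 with hD
  set τ : ℝ := t * ε with hτ
  have hτ0 : 0 ≤ τ := by positivity
  have hτ1 : τ ≤ 1 := by
    have := (lt_div_iff₀ htpos).1 hεt
    rw [hτ]; nlinarith
  have hεpow : ε * ε ^ (N - 1) = ε ^ N := by
    rw [← pow_succ']; congr 1; omega
  have hmain : 2 * τ * B (u n) (phie ε (R • ω)) + τ ^ 2 * D ≤ -γ * ε ^ N := by
    have h1 : 2 * τ * B (u n) (phie ε (R • ω)) ≤ 2 * τ * (-(β / 2) * ε ^ (N - 1)) :=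
      mul_le_mul_of_nonneg_left hn2.le (by positivity)
    have h2 : 2 * τ * (-(β / 2) * ε ^ (N - 1)) = -(t * β) * ε ^ N := by
      rw [← hεpow, hτ]; ring
    have h3 : τ ^ 2 * D = t ^ 2 * D1 * ε ^ N := by
      rw [hτ, hD]; field_simp
    have h4 : -(t * β) + t ^ 2 * D1 = -γ := by
      rw [ht, hγ]; field_simp; ring
    calc _ ≤ -(t * β) * ε ^ N + t ^ 2 * D1 * ε ^ N := by rw [h3]; linarith
      _ = (-(t * β) + t ^ 2 * D1) * ε ^ N := by ring
      _ = -γ * ε ^ N := by rw [h4]
  obtain ⟨hu1, hu2, hu3⟩ := hu n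
  set φ := phie ε (R • ω) with hφ
  set w : E N → ℝ := fun x => u n x + τ * φ x with hw
  have hwt : IsTest (ball (0 : E N) R ∪ ball (R • ω) ε) w := by
    refine ⟨hu1.add (contDiff_const.mul hφs), hu2.add (hφc.mul_left (f := fun _ => τ)), ?_⟩
    have hsub : tsupport w ⊆ tsupport (u n) ∪ tsupport φ := by
      unfold tsupport
      rw [← closure_union]
      apply closure_mono
      intro x hx
      by_contra h
      rw [mem_union, not_or, Function.notMem_support, Function.notMem_support] at h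
      apply hx
      simp only [hw, h.1, h.2]; ring
    refine hsub.trans (union_subset_union hu3 hφt)
  have hw0 : w ≠ 0 := by
    intro h
    have h1 := congrFun h 0
    simp only [hw, hu0, Pi.zero_apply] at h1
    have := mul_nonneg hτ0 (hφ01 0).1
    linarith
  apply raySet_one hwt hw0
  rw [B_self N w hwt.1 hwt.2.1, B_expand hu1 hu2 hφs hφc τ]
  have hDφ : B φ φ ≤ D := phie_phie N ε hεpos' (R • ω)
  have hDτ : τ ^ 2 * B φ φ ≤ τ ^ 2 * D := mul_le_mul_of_nonneg_left hDφ (sq_nonneg _)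
  -- bound on the `L²` norm
  have hL2 : ∫ x, w x ^ 2 ≤ 4 * K0 := by
    have hpt : ∀ x, w x ^ 2 ≤ (ball (0 : E N) (R + 1)).indicator (fun _ => (4:ℝ)) x := by
      intro x
      by_cases hx : x ∈ ball (0 : E N) (R + 1)
      · rw [indicator_of_mem hx]
        have h1 := h01 n x
        have h2 := hφ01 x
        have h3 : 0 ≤ w x := add_nonneg h1.1 (mul_nonneg hτ0 h2.1)
        have h4 : w x ≤ 2 := by
          have : τ * φ x ≤ 1 := mul_le_one₀ hτ1 h2.1 h2.2
          simp only [hw]; linarith [h1.2]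
        nlinarith
      · rw [indicator_of_notMem hx]
        rw [mem_ball_zero_iff, not_lt] at hx
        have h1 : x ∉ ball (0 : E N) R ∪ ball (R • ω) ε := by
          rintro (h | h)
          · rw [mem_ball_zero_iff] at h; linarith
          · rw [mem_ball, dist_eq_norm] at h
            have h2 : ‖x‖ ≤ ‖x - R • ω‖ + ‖R • ω‖ := by
              calc ‖x‖ = ‖(x - R • ω) + R • ω‖ := by congr 1; abel
                _ ≤ _ := norm_add_le _ _
            rw [norm_smul, hω, mul_one, Real.norm_of_nonneg hR.le] at h2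
            linarith
        rw [(test_zero_of_notMem hwt h1).1]; simp
    have h8 := integral_mono (test_int_sq hwt)
        ((integrable_indicator_iff measurableSet_ball).2 (integrableOn_const (C := (4:ℝ)) hfin)) hpt
    rw [integral_indicator measurableSet_ball, setIntegral_const, smul_eq_mul] at h8
    have h10 : volume.real (ball (0 : E N) (R + 1)) = K0 := rfl
    rw [h10] at h8
    linarith
  have hg1 : γ / (8 * K0) * ε ^ N * ∫ x, w x ^ 2 ≤ γ / 2 * ε ^ N := by
    calc γ / (8 * K0) * ε ^ N * ∫ x, w x ^ 2 ≤ γ / (8 * K0) * ε ^ N * (4 * K0) :=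
          mul_le_mul_of_nonneg_left hL2 (by positivity)
      _ = γ / 2 * ε ^ N := by field_simp; ring
  linarith

/-- almost eigenfunctions on the ball -/
theorem ball_ray_unit (hN : 2 ≤ N) (F : ℝ → ℝ) (R : ℝ) (hG : Ground N F R) {δ : ℝ} (hδ : 0 < δ) :
    1 + δ ∈ RaySet N 1 (ball (0 : E N) R) := by
  have hR := hG.Rpos
  have : NeZero N := ⟨by omega⟩
  obtain ⟨ω, hω⟩ : ∃ ω : E N, ‖ω‖ = 1 := ⟨EuclideanSpace.single 0 1, by simp⟩
  obtain ⟨β, hβ, hb⟩ := b_asymp N hN F R hG ω hω
  obtain ⟨ε, hbε, hεpos⟩ := (hb.and self_mem_nhdsWithin).exists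
  have hεpos' : 0 < ε := hεpos
  obtain ⟨u, hu, hrad, h01, hu0, huu, huφ⟩ := approx N hN F R hG
  obtain ⟨hφs, hφc, hφt, hφ01⟩ := phie_facts N ε hεpos' (R • ω)
  set φ := phie ε (R • ω) with hφ
  set b : ℝ := β * ε ^ (N - 1) with hbdef
  have hbpos : 0 < b := by positivity
  have hφtest : IsTest univ φ := ⟨hφs, hφc, subset_univ _⟩
  set S : ℝ := (∫ x, ‖fderiv ℝ φ x‖ ^ 2) + (∫ x, φ x ^ 2) + 1 with hS
  have hS0 : 0 < S := by
    have h1 : 0 ≤ ∫ x, ‖fderiv ℝ φ x‖ ^ 2 := integral_nonneg fun x => sq_nonneg _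
    have h2 : 0 ≤ ∫ x, φ x ^ 2 := integral_nonneg fun x => sq_nonneg _
    positivity
  set c0 : ℝ := b ^ 2 / (12 * S) with hc0
  have hc0pos : 0 < c0 := by positivity
  have a2 : ∀ᶠ n in atTop, B (u n) φ < -(b / 2) := by
    apply (huφ _ hφs hφc).eventually_lt_const
    refine lt_of_le_of_lt hbε ?_
    rw [neg_mul, ← hbdef]; linarith
  have a1 : ∀ᶠ n in atTop, B (u n) (u n) < min c0 (δ * c0) :=
    huu.eventually_lt_const (by positivity)
  obtain ⟨n, hn1, hn2⟩ := (a1.and a2).exists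
  obtain ⟨hu1, hu2, hu3⟩ := hu n
  have hut := hu n
  have hself := B_self N (u n) hu1 hu2
  have hlow : c0 ≤ ∫ x, u n x ^ 2 := by
    by_contra hcon
    push Not at hcon
    -- Cauchy–Schwarz
    set θ : ℝ := 2 * S / b with hθ
    have hθpos : 0 < θ := by positivity
    have hpos : 0 ≤ B (u n) (u n) + 0 + 0 ∨ True := Or.inr trivial
    have hexp : 0 ≤ (∫ x, ‖fderiv ℝ (fun x => u n x + θ⁻¹ * φ x) x‖ ^ 2) := integral_nonneg fun x => sq_nonneg _
    have hcs : -(2 * B (u n) φ) ≤ θ * ((∫ x, ‖fderiv ℝ (u n) x‖ ^ 2) + ∫ x, u n x ^ 2) + θ⁻¹ * ((∫ x, ‖fderiv ℝ φ x‖ ^ 2) + ∫ x, φ x ^ 2) := by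
      have hgn : ∀ (v : E N → ℝ) x, ‖gradient v x‖ = ‖fderiv ℝ v x‖ := fun v x => by unfold gradient; simp
      have hgc : ∀ {v : E N → ℝ}, ContDiff ℝ (⊤ : ℕ∞) v → Continuous (fun x => gradient v x) := by
        intro v hv
        unfold gradient
        exact (LinearIsometryEquiv.continuous _).comp (hv.continuous_fderiv (by simp))
      have hBint : Integrable (fun x => (inner ℝ (gradient (u n) x) (gradient φ x) - u n x * φ x : ℝ)) := by
        apply Continuous.integrable_of_hasCompactSupport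
        · exact ((hgc hu1).inner (hgc hφs)).sub (hu1.continuous.mul hφs.continuous)
        · refine HasCompactSupport.intro hu2 fun x hx => ?_
          have h1 : u n x = 0 := image_eq_zero_of_notMem_tsupport hx
          have h2 : fderiv ℝ (u n) x = 0 := by
            have : u n =ᶠ[𝓝 x] fun _ => 0 := by
              filter_upwards [(isClosed_tsupport (u n)).isOpen_compl.mem_nhds hx] with y hy
              exact image_eq_zero_of_notMem_tsupport hy
            rw [this.fderiv_eq]; simp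
          have h3 : gradient (u n) x = 0 := by unfold gradient; rw [h2]; simp
          rw [h1, h3]; simp
      have hpt : ∀ x, -(2 * (inner ℝ (gradient (u n) x) (gradient φ x) - u n x * φ x)) ≤
          θ * (‖fderiv ℝ (u n) x‖ ^ 2 + u n x ^ 2) + θ⁻¹ * (‖fderiv ℝ φ x‖ ^ 2 + φ x ^ 2) := by
        intro x
        have h1 : -(inner ℝ (gradient (u n) x) (gradient φ x)) ≤ ‖fderiv ℝ (u n) x‖ * ‖fderiv ℝ φ x‖ := by
          have := abs_real_inner_le_norm (gradient (u n) x) (gradient φ x)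
          rw [hgn, hgn] at this
          exact (neg_le_abs _).trans this
        have h2 : ∀ a b : ℝ, 2 * (a * b) ≤ θ * a ^ 2 + θ⁻¹ * b ^ 2 := by
          intro a b
          have h3 : 0 ≤ θ⁻¹ * (θ * a - b) ^ 2 := by positivity
          have h4 : θ⁻¹ * (θ * a - b) ^ 2 = θ * a ^ 2 - 2 * (a * b) + θ⁻¹ * b ^ 2 := by
            field_simp; ring
          linarith
        have h5 := h2 (‖fderiv ℝ (u n) x‖) (‖fderiv ℝ φ x‖)
        have h6 := h2 (u n x) (φ x)
        nlinarith
      have h7 := integral_mono (hBint.const_mul 2).neg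
        ((((test_int_fd hut).add (test_int_sq hut)).const_mul θ).add (((test_int_fd hφtest).add (test_int_sq hφtest)).const_mul θ⁻¹)) hpt
      have e1 : ∫ x, (-fun x => 2 * (inner ℝ (gradient (u n) x) (gradient φ x) - u n x * φ x)) x = -(2 * B (u n) φ) := by
        simp only [Pi.neg_apply]
        rw [integral_neg, integral_const_mul]; rfl
      rw [e1] at h7
      refine h7.trans (le_of_eq ?_)
      have e2 := integral_add (((test_int_fd hut).add (test_int_sq hut)).const_mul θ) (((test_int_fd hφtest).add (test_int_sq hφtest)).const_mul θ⁻¹)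
      simp only [Pi.add_apply] at e2 ⊢
      rw [e2, integral_const_mul, integral_const_mul, integral_add (test_int_fd hut) (test_int_sq hut),
        integral_add (test_int_fd hφtest) (test_int_sq hφtest)]
    have h1 : (∫ x, ‖fderiv ℝ (u n) x‖ ^ 2) + ∫ x, u n x ^ 2 ≤ 3 * c0 := by
      have := lt_of_lt_of_le hn1 (min_le_left _ _)
      linarith
    have h2 : (∫ x, ‖fderiv ℝ φ x‖ ^ 2) + ∫ x, φ x ^ 2 ≤ S := by rw [hS]; linarith
    have h3 : θ * (3 * c0) = b / 2 := by rw [hθ, hc0]; field_simp; ring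
    have h4 : θ⁻¹ * S = b / 2 := by rw [hθ]; field_simp
    have h5 := mul_le_mul_of_nonneg_left h1 hθpos.le
    have h6 := mul_le_mul_of_nonneg_left h2 (inv_nonneg.2 hθpos.le)
    linarith
  have hne : u n ≠ 0 := by
    intro h
    have := hu0 n
    rw [h] at this; simp at this
  apply raySet_one hut hne
  rw [hself]
  have h1 := lt_of_lt_of_le hn1 (min_le_right _ _)
  have h2 := mul_le_mul_of_nonneg_left hlow hδ.le
  linarith

theorem ball_ray (hN : 2 ≤ N) (F : ℝ → ℝ) (R : ℝ) (hG : Ground N F R) (q : E N) {ρ : ℝ} (hρ : 0 < ρ) {c : ℝ}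
    (hc : (R / ρ) ^ 2 < c) : c ∈ RaySet N 1 (ball q ρ) := by
  have hR := hG.Rpos
  set δ : ℝ := c / (R / ρ) ^ 2 - 1 with hδdef
  have hq : 0 < (R / ρ) ^ 2 := by positivity
  have hδ : 0 < δ := by
    rw [hδdef, sub_pos, lt_div_iff₀ hq]; linarith
  have h1 := ball_ray_unit hN F R hG hδ
  have hs : 0 < ρ / R := by positivity
  have h2 := scale_ray N 1 _ (ρ / R) hs _ h1
  have h3 := raySet_translate q h2
  have e1 : (1 + δ) / (ρ / R) ^ 2 = c := by
    rw [hδdef]; field_simp; ring
  have e2 : (fun x : E N => x + q) '' ((fun x : E N => (ρ / R) • x) '' ball (0 : E N) R) = ball q ρ := by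
    ext y
    simp only [mem_image, mem_ball_zero_iff, exists_exists_and_eq_and]
    constructor
    · rintro ⟨x, hx, rfl⟩
      rw [mem_ball, dist_eq_norm, add_sub_cancel_right, norm_smul, Real.norm_of_nonneg hs.le]
      calc ρ / R * ‖x‖ < ρ / R * R := mul_lt_mul_of_pos_left hx hs
        _ = ρ := by field_simp
    · intro hy
      rw [mem_ball, dist_eq_norm] at hy
      refine ⟨(R / ρ) • (y - q), ?_, ?_⟩
      · rw [norm_smul, Real.norm_of_nonneg (by positivity)]
        calc R / ρ * ‖y - q‖ < R / ρ * ρ := mul_lt_mul_of_pos_left hy (by positivity)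
          _ = R := by field_simp
      · rw [smul_smul]
        have : ρ / R * (R / ρ) = 1 := by field_simp
        rw [this, one_smul]; abel
  rw [e1, e2] at h3
  exact h3

end Pool.Agent.H793R2.TC
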