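import Pool.Agent.H793R2.FK.FK

set_option autoImplicit false
open MeasureTheory Filter Topology Metric Set
open Pool.Agent.Helper949.TB

namespace Pool.Agent.H793R2.TC

set_option linter.unusedVariables false
set_option linter.unusedSimpArgs false

variable {N : ℕ}

theorem raySet_mono {k : ℕ} {Ω Ω' : Set (E N)} (h : Ω ⊆ Ω') : RaySet N k Ω ⊆ RaySet N k Ω' := by
  rintro c ⟨V, hV, hv⟩
  refine ⟨V, hV, fun v hvV => ?_⟩
  obtain ⟨h1, h2, h3, h4⟩ := hv v hvV
  exact ⟨h1, h2, h3.trans h, h4⟩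

theorem raySet_up {k : ℕ} {Ω : Set (E N)} {c d : ℝ} (h : c ≤ d) (hc : c ∈ RaySet N k Ω) : d ∈ RaySet N k Ω := by
  obtain ⟨V, hV, hv⟩ := hc
  refine ⟨V, hV, fun v hvV => ?_⟩
  obtain ⟨h1, h2, h3, h4⟩ := hv v hvV
  refine ⟨h1, h2, h3, h4.trans ?_⟩
  exact mul_le_mul_of_nonneg_right h (integral_nonneg fun x => sq_nonneg _)

theorem lam_mem {k : ℕ} (hk : 1 ≤ k) {Ω : Set (E N)} {c : ℝ} (hc : lam N k Ω < c)
    (hne : (RaySet N k Ω).Nonempty) : c ∈ RaySet N k Ω := by
  obtain ⟨d, hd, hdc⟩ := exists_lt_of_csInf_lt hne hc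
  exact raySet_up hdc.le hd

theorem lam_anti {k : ℕ} (hk : 1 ≤ k) {Ω Ω' : Set (E N)} (h : Ω ⊆ Ω') (hne : (RaySet N k Ω).Nonempty) :
    lam N k Ω' ≤ lam N k Ω :=
  le_csInf hne fun c hc => lam_le N k hk Ω' c (raySet_mono h hc)

/-- restriction of a test function to one of two disjoint open pieces -/
structure CutFacts (U : Set (E N)) (v : E N → ℝ) : Prop where
  test : IsTest U (U.indicator v)
  fd : ∀ x, fderiv ℝ (U.indicator v) x = U.indicator (fun y => fderiv ℝ v y) x

theorem cut_facts {U V : Set (E N)} (hU : IsOpen U) (hV : IsOpen V) (hd : Disjoint U V) {v : E N → ℝ}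
    (hv : IsTest (U ∪ V) v) : CutFacts U v := by
  obtain ⟨h1, h2, h3⟩ := hv
  set K : Set (E N) := tsupport v \ V with hK
  have hKU : K ⊆ U := fun x hx => (h3 hx.1).resolve_right hx.2
  have hKc : IsCompact K := h2.diff hV
  have hz : ∀ x ∉ K, U.indicator v x = 0 := by
    intro x hx
    by_cases hxU : x ∈ U
    · rw [indicator_of_mem hxU]
      have hxV : x ∉ V := fun h => (Set.disjoint_left.1 hd) hxU h
      apply image_eq_zero_of_notMem_tsupport
      intro h; exact hx ⟨h, hxV⟩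
    · exact indicator_of_notMem hxU _
  have hts : tsupport (U.indicator v) ⊆ K := by
    apply closure_minimal _ hKc.isClosed
    intro x hx
    by_contra h
    exact hx (hz x h)
  have e1 : ∀ x ∈ U, U.indicator v =ᶠ[𝓝 x] v := by
    intro x hx
    filter_upwards [hU.mem_nhds hx] with y hy
    exact indicator_of_mem hy _
  have e2 : ∀ x ∉ K, U.indicator v =ᶠ[𝓝 x] fun _ => 0 := by
    intro x hx
    filter_upwards [hKc.isClosed.isOpen_compl.mem_nhds hx] with y hy
    exact hz y hy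
  have hcd : ContDiff ℝ (⊤ : ℕ∞) (U.indicator v) := by
    rw [contDiff_iff_contDiffAt]
    intro x
    by_cases hx : x ∈ K
    · exact h1.contDiffAt.congr_of_eventuallyEq (e1 x (hKU hx))
    · exact contDiffAt_const.congr_of_eventuallyEq (e2 x hx)
  refine ⟨⟨hcd, hKc.of_isClosed_subset (isClosed_tsupport _) hts, hts.trans hKU⟩, fun x => ?_⟩
  by_cases hx : x ∈ U
  · rw [indicator_of_mem hx, (e1 x hx).fderiv_eq]
  · rw [indicator_of_notMem hx, (e2 x fun h => hx (hKU h)).fderiv_eq]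
    simp

theorem test_int_sq {Ω : Set (E N)} {v : E N → ℝ} (hv : IsTest Ω v) : Integrable (fun x => v x ^ 2) :=
  (FK.CC.sq ⟨hv.1.continuous, hv.2.1⟩).int

theorem test_int_fd {Ω : Set (E N)} {v : E N → ℝ} (hv : IsTest Ω v) : Integrable (fun x => ‖fderiv ℝ v x‖ ^ 2) :=
  (FK.CC.fderiv_norm (hv.1.of_le (by simp)) hv.2.1).int

theorem test_zero_of_notMem {Ω : Set (E N)} {v : E N → ℝ} (hv : IsTest Ω v) {x : E N} (hx : x ∉ Ω) :
    v x = 0 ∧ fderiv ℝ v x = 0 := by
  have h1 : x ∉ tsupport v := fun h => hx (hv.2.2 h)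
  refine ⟨image_eq_zero_of_notMem_tsupport h1, ?_⟩
  have : v =ᶠ[𝓝 x] fun _ => 0 := by
    filter_upwards [(isClosed_tsupport v).isOpen_compl.mem_nhds h1] with y hy
    exact image_eq_zero_of_notMem_tsupport hy
  rw [this.fderiv_eq]; simp

/-- orthogonal splitting of the two integrals -/
theorem split_int {U V : Set (E N)} (hU : IsOpen U) (hV : IsOpen V) (hd : Disjoint U V) {v : E N → ℝ}
    (hv : IsTest (U ∪ V) v) :
    (∀ x, v x = U.indicator v x + V.indicator v x) ∧
    (∫ x, v x ^ 2 = (∫ x, (U.indicator v x) ^ 2) + ∫ x, (V.indicator v x) ^ 2) ∧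
    (∫ x, ‖fderiv ℝ v x‖ ^ 2 = (∫ x, ‖fderiv ℝ (U.indicator v) x‖ ^ 2) + ∫ x, ‖fderiv ℝ (V.indicator v) x‖ ^ 2) := by
  have cU := cut_facts hU hV hd hv
  have cV := cut_facts hV hU hd.symm (by rwa [union_comm])
  have hpt : ∀ x, (x ∈ U ∧ x ∉ V) ∨ (x ∉ U ∧ x ∈ V) ∨ (x ∉ U ∧ x ∉ V ∧ v x = 0 ∧ fderiv ℝ v x = 0) := by
    intro x
    by_cases h1 : x ∈ U
    · exact Or.inl ⟨h1, fun h => (Set.disjoint_left.1 hd) h1 h⟩
    · by_cases h2 : x ∈ V
      · exact Or.inr (Or.inl ⟨h1, h2⟩)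
      · have := test_zero_of_notMem hv (x := x) (by rintro (h | h); exacts [h1 h, h2 h])
        exact Or.inr (Or.inr ⟨h1, h2, this⟩)
  refine ⟨fun x => ?_, ?_, ?_⟩
  · rcases hpt x with ⟨h1, h2⟩ | ⟨h1, h2⟩ | ⟨h1, h2, h3, h4⟩ <;> simp [h1, h2, *]
  · rw [← integral_add (test_int_sq cU.test) (test_int_sq cV.test)]
    congr 1; funext x
    rcases hpt x with ⟨h1, h2⟩ | ⟨h1, h2⟩ | ⟨h1, h2, h3, h4⟩ <;> simp [h1, h2, *]
  · rw [← integral_add (test_int_fd cU.test) (test_int_fd cV.test)]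
    congr 1; funext x
    rw [cU.fd, cV.fd]
    rcases hpt x with ⟨h1, h2⟩ | ⟨h1, h2⟩ | ⟨h1, h2, h3, h4⟩ <;> simp [h1, h2, *]

/-- if `c` is below the first eigenvalue of `V`, then `V` does not contribute -/
theorem raySet_split {k : ℕ} (hk : 1 ≤ k) {U V : Set (E N)} (hU : IsOpen U) (hV : IsOpen V) (hd : Disjoint U V) {m c : ℝ}
    (hm : ∀ f : E N → ℝ, IsTest V f → m * ∫ x, f x ^ 2 ≤ ∫ x, ‖fderiv ℝ f x‖ ^ 2)
    (hc : c ∈ RaySet N k (U ∪ V)) (hcm : c < m) : c ∈ RaySet N k U := by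
  obtain ⟨W, hW, hw⟩ := hc
  have hfin : FiniteDimensional ℝ W := Module.finite_of_finrank_pos (by omega)
  have hvt : ∀ v ∈ W, IsTest (U ∪ V) v := fun v hv => ⟨(hw v hv).1, (hw v hv).2.1, (hw v hv).2.2.1⟩
  let T : (E N → ℝ) →ₗ[ℝ] (E N → ℝ) :=
    { toFun := fun v => U.indicator v
      map_add' := fun a b => by
        funext x
        by_cases h : x ∈ U
        · simp [h]
        · simp [h]
      map_smul' := fun a b => by
        funext x
        by_cases h : x ∈ U
        · simp [h]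
        · simp [h] }
  have hTv : ∀ v, T v = U.indicator v := fun v => rfl
  have hsq : ∀ v ∈ W, (∫ x, v x ^ 2 = 0) → v = 0 := by
    intro v hv h0
    have hcc : FK.CC v := ⟨(hvt v hv).1.continuous, (hvt v hv).2.1⟩
    have h1 := (integral_eq_zero_iff_of_nonneg (fun x => sq_nonneg (v x)) hcc.sq.int).1 h0
    have h2 : (fun x => v x ^ 2) = 0 := (hcc.sq.1.ae_eq_iff_eq volume continuous_zero).1 h1
    funext x
    have := congrFun h2 x
    simpa using this
  have key : ∀ v ∈ W, (∫ x, ‖fderiv ℝ (U.indicator v) x‖ ^ 2) + (m - c) * (∫ x, (V.indicator v x) ^ 2) ≤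
      c * ∫ x, (U.indicator v x) ^ 2 := by
    intro v hv
    obtain ⟨-, s2, s3⟩ := split_int hU hV hd (hvt v hv)
    have cV := cut_facts hV hU hd.symm (v := v) (by rw [union_comm]; exact hvt v hv)
    have h1 := hm _ cV.test
    have h2 := (hw v hv).2.2.2
    rw [s2, s3] at h2
    nlinarith
  have hinj : ∀ v ∈ W, T v = 0 → v = 0 := by
    intro v hv h0
    rw [hTv] at h0
    have h1 := key v hv
    rw [h0] at h1
    obtain ⟨-, s2, s3⟩ := split_int hU hV hd (hvt v hv)
    rw [h0] at s2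
    simp only [Pi.zero_apply, ne_eq, OfNat.ofNat_ne_zero, not_false_eq_true, zero_pow, integral_zero, zero_add] at s2
    have h3 : ∀ x, fderiv ℝ (0 : E N → ℝ) x = 0 := fun x => by simp
    simp only [h3, norm_zero, Pi.zero_apply, ne_eq, OfNat.ofNat_ne_zero, not_false_eq_true, zero_pow, integral_zero, zero_add, mul_zero] at h1
    have h4 : 0 ≤ ∫ x, (V.indicator v x) ^ 2 := integral_nonneg fun x => sq_nonneg _
    have h5 : ∫ x, (V.indicator v x) ^ 2 = 0 := by
      have : 0 < m - c := by linarith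
      nlinarith
    exact hsq v hv (by rw [s2, h5])
  refine ⟨W.map T, ?_, ?_⟩
  · rw [← hW]
    have : W.map T = LinearMap.range (T.domRestrict W) := by
      ext y; simp
    rw [this]
    apply LinearMap.finrank_range_of_inj
    rw [← LinearMap.ker_eq_bot, LinearMap.ker_eq_bot']
    intro w hw0
    exact Subtype.ext (hinj w.1 w.2 hw0)
  · rintro _ ⟨v, hv, rfl⟩
    have cU := cut_facts hU hV hd (hvt v hv)
    refine ⟨cU.test.1, cU.test.2.1, cU.test.2.2, ?_⟩
    have h1 := key v hv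
    have h4 : 0 ≤ ∫ x, (V.indicator v x) ^ 2 := integral_nonneg fun x => sq_nonneg _
    have h5 : 0 ≤ (m - c) * ∫ x, (V.indicator v x) ^ 2 := mul_nonneg (by linarith) h4
    rw [hTv]
    linarith

/-- two test functions with disjoint supports give a two dimensional space -/
theorem raySet_two {U V : Set (E N)} (hd : Disjoint U V) {a b : E N → ℝ}
    (ha : IsTest U a) (hb : IsTest V b) (ha0 : a ≠ 0) (hb0 : b ≠ 0) {c : ℝ}
    (hca : ∫ x, ‖fderiv ℝ a x‖ ^ 2 ≤ c * ∫ x, a x ^ 2) (hcb : ∫ x, ‖fderiv ℝ b x‖ ^ 2 ≤ c * ∫ x, b x ^ 2) :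
    c ∈ RaySet N 2 (U ∪ V) := by
  obtain ⟨p, hp⟩ : ∃ p, a p ≠ 0 := by
    by_contra h; push Not at h; exact ha0 (funext h)
  obtain ⟨q, hq⟩ : ∃ q, b q ≠ 0 := by
    by_contra h; push Not at h; exact hb0 (funext h)
  have hpU : p ∈ U := ha.2.2 (subset_tsupport _ hp)
  have hqV : q ∈ V := hb.2.2 (subset_tsupport _ hq)
  have hbp : b p = 0 := (test_zero_of_notMem hb (fun h => (Set.disjoint_left.1 hd) hpU h)).1
  have haq : a q = 0 := (test_zero_of_notMem ha (fun h => (Set.disjoint_left.1 hd) h hqV)).1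
  have hli : LinearIndependent ℝ ![a, b] := by
    rw [LinearIndependent.pair_iff]
    intro s t hst
    have h1 := congrFun hst p
    have h2 := congrFun hst q
    simp only [Pi.add_apply, Pi.smul_apply, smul_eq_mul, Pi.zero_apply, hbp, haq, mul_zero, add_zero, zero_add] at h1 h2
    exact ⟨(mul_eq_zero.1 h1).resolve_right hp, (mul_eq_zero.1 h2).resolve_right hq⟩
  refine ⟨Submodule.span ℝ (range ![a, b]), ?_, ?_⟩
  · rw [finrank_span_eq_card hli]; simp
  · intro v hv
    have hv2 : ∃ s t : ℝ, v = s • a + t • b := by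
      have : range ![a, b] = {a, b} := by
        simp only [Matrix.range_cons, Matrix.range_empty, union_empty]
        rfl
      rw [this, Submodule.mem_span_pair] at hv
      obtain ⟨s, t, h⟩ := hv
      exact ⟨s, t, h.symm⟩
    obtain ⟨s, t, rfl⟩ := hv2
    have hsa : tsupport (s • a) ⊆ tsupport a := tsupport_smul_subset_right (fun _ => s) a
    have htb : tsupport (t • b) ⊆ tsupport b := tsupport_smul_subset_right (fun _ => t) b
    have hda : Differentiable ℝ a := ha.1.differentiable (by simp)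
    have hdb : Differentiable ℝ b := hb.1.differentiable (by simp)
    have hfd : ∀ x, fderiv ℝ (s • a + t • b) x = s • fderiv ℝ a x + t • fderiv ℝ b x := by
      intro x
      rw [fderiv_add ((hda x).const_smul s) ((hdb x).const_smul t), fderiv_const_smul (hda x), fderiv_const_smul (hdb x)]
    have hpt : ∀ x, (a x = 0 ∧ fderiv ℝ a x = 0) ∨ (b x = 0 ∧ fderiv ℝ b x = 0) := by
      intro x
      by_cases h1 : x ∈ U
      · exact Or.inr (test_zero_of_notMem hb (fun h => (Set.disjoint_left.1 hd) h1 h))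
      · exact Or.inl (test_zero_of_notMem ha h1)
    have e1 : ∀ x, ‖fderiv ℝ (s • a + t • b) x‖ ^ 2 = s ^ 2 * ‖fderiv ℝ a x‖ ^ 2 + t ^ 2 * ‖fderiv ℝ b x‖ ^ 2 := by
      intro x
      rw [hfd]
      rcases hpt x with ⟨h1, h2⟩ | ⟨h1, h2⟩
      · rw [h2]; simp [norm_smul, mul_pow]
      · rw [h2]; simp [norm_smul, mul_pow]
    have e2 : ∀ x, (s • a + t • b) x ^ 2 = s ^ 2 * a x ^ 2 + t ^ 2 * b x ^ 2 := by
      intro x
      simp only [Pi.add_apply, Pi.smul_apply, smul_eq_mul]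
      rcases hpt x with ⟨h1, h2⟩ | ⟨h1, h2⟩
      · rw [h1]; ring
      · rw [h1]; ring
    refine ⟨(ha.1.const_smul s).add (hb.1.const_smul t), ?_, ?_, ?_⟩
    · exact (ha.2.1.smul_left (f := fun _ => s)).add (hb.2.1.smul_left (f := fun _ => t))
    · have hsub : tsupport (s • a + t • b) ⊆ tsupport (s • a) ∪ tsupport (t • b) := by
        unfold tsupport
        rw [← closure_union]
        exact closure_mono (Function.support_add _ _)
      refine hsub.trans ?_
      exact union_subset_union (hsa.trans ha.2.2) (htb.trans hb.2.2)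
    · simp only [e1, e2]
      rw [integral_add ((test_int_fd ha).const_mul _) ((test_int_fd hb).const_mul _),
        integral_add ((test_int_sq ha).const_mul _) ((test_int_sq hb).const_mul _)]
      simp only [integral_const_mul]
      have h1 := mul_le_mul_of_nonneg_left hca (sq_nonneg s)
      have h2 := mul_le_mul_of_nonneg_left hcb (sq_nonneg t)
      nlinarith

end Pool.Agent.H793R2.TC
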