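import Pool.Agent.H793R2.TC.Neck

set_option autoImplicit false
open MeasureTheory Filter Topology Metric Set
open Pool.Agent.Helper949.TB

namespace Pool.Agent.H793R2.TC

set_option linter.unusedVariables false
set_option linter.unusedSimpArgs false

variable {N : ℕ}

/-- two tangent balls joined by a small ball beat the two disjoint balls, normalized version -/
theorem neck_unit (hN : 2 ≤ N) (F : ℝ → ℝ) (R : ℝ) (hG : Ground N F R) {r : ℝ} (hr : 0 < r) (hrR : r ≤ R)
    {t : ℝ} (ht0 : 0 < t) (ht1 : t ≤ 1) :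
    ∃ Ω : Set (E N), IsOpen Ω ∧ volume Ω = volume (ball (0 : E N) R) + volume (ball (0 : E N) r) ∧
      ∃ c₁ ∈ RaySet N 1 Ω, ∃ c₂ ∈ RaySet N 2 Ω, t * c₁ + (1 - t) * c₂ < t + (1 - t) * (R / r) ^ 2 := by
  have hR := hG.Rpos
  have : NeZero N := ⟨by omega⟩
  obtain ⟨ω, hω⟩ : ∃ ω : E N, ‖ω‖ = 1 := ⟨EuclideanSpace.single 0 1, by simp⟩
  obtain ⟨g, hg, hb⟩ := bump_ray hN F R hG ω hω
  obtain ⟨θ, hθ, hθ0, hgap⟩ := gap_volume N (by omega) r hr
  set V1 : ℝ := (volume (ball (0 : E N) R)).toReal with hV1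
  set V2 : ℝ := (volume (ball (0 : E N) r)).toReal with hV2
  have hfR : volume (ball (0 : E N) R) ≠ ⊤ := measure_ball_lt_top.ne
  have hfr : volume (ball (0 : E N) r) ≠ ⊤ := measure_ball_lt_top.ne
  have hV1pos : 0 < V1 := ENNReal.toReal_pos (measure_ball_pos _ _ hR).ne' hfR
  have hV2pos : 0 < V2 := ENNReal.toReal_pos (measure_ball_pos _ _ hr).ne' hfr
  set V0 : ℝ := V1 + V2 with hV0
  have hV0pos : 0 < V0 := by positivity
  have hsum : volume (ball (0 : E N) R) + volume (ball (0 : E N) r) = ENNReal.ofReal V0 := by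
    rw [hV0, ENNReal.ofReal_add hV1pos.le hV2pos.le, hV1, hV2, ENNReal.ofReal_toReal hfR, ENNReal.ofReal_toReal hfr]
  set Λ : ℝ := (R / r) ^ 2 with hΛ
  have hΛ0 : 0 < Λ := by positivity
  set F0 : ℝ := t + (1 - t) * Λ with hF0
  have hF0pos : 0 < F0 := by
    have : 0 ≤ (1 - t) * Λ := mul_nonneg (by linarith) hΛ0.le
    linarith
  have e1 : ∀ᶠ ε in 𝓝[>] (0 : ℝ), θ ε < t * g * V0 / F0 := hθ.eventually_lt_const (by positivity)
  have e2 : ∀ᶠ ε in 𝓝[>] (0 : ℝ), ε < min r 1 := by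
    apply mem_nhdsWithin_of_mem_nhds
    exact Iio_mem_nhds (by positivity)
  obtain ⟨ε, ⟨⟨hray, hθε⟩, hε2⟩, hεpos⟩ := (((hb.and e1).and e2).and self_mem_nhdsWithin).exists
  have hεpos' : 0 < ε := hεpos
  have hεr : ε < r := lt_of_lt_of_le hε2 (min_le_left _ _)
  have hεN : 0 < ε ^ N := by positivity
  set p : E N := R • ω with hp
  set q : E N := (R + r) • ω with hq
  set Ω : Set (E N) := (ball (0 : E N) R ∪ ball p ε) ∪ ball q r with hΩ
  have hΩo : IsOpen Ω := (isOpen_ball.union isOpen_ball).union isOpen_ball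
  have hdisj : Disjoint (ball (0 : E N) R) (ball q r) := by
    apply ball_disjoint_ball
    rw [dist_zero_left, hq, norm_smul, hω, mul_one, Real.norm_of_nonneg (by linarith)]
  -- volume
  have hlow : ENNReal.ofReal V0 ≤ volume Ω := by
    rw [← hsum]
    calc volume (ball (0 : E N) R) + volume (ball (0 : E N) r) = volume (ball (0 : E N) R) + volume (ball q r) := by
          rw [Measure.addHaar_ball_center volume q r]
      _ = volume (ball (0 : E N) R ∪ ball q r) := (measure_union hdisj measurableSet_ball).symm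
      _ ≤ volume Ω := by
          apply measure_mono
          rintro x (hx | hx)
          · exact Or.inl (Or.inl hx)
          · exact Or.inr hx
  have hupper : volume Ω ≤ ENNReal.ofReal (V0 + θ ε * ε ^ N) := by
    have hmid : midpoint ℝ ((R - r) • ω) q = p := by
      rw [midpoint_eq_smul_add, hq, hp, ← add_smul, smul_smul]
      congr 1
      rw [invOf_eq_inv]; ring
    have hdist : dist ((R - r) • ω) q = 2 * r := by
      rw [hq, dist_eq_norm, ← sub_smul, norm_smul, hω, mul_one]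
      have : R - r - (R + r) = -(2 * r) := by ring
      rw [this, norm_neg, Real.norm_of_nonneg (by linarith)]
    have h1 := hgap ((R - r) • ω) q hdist ε hεpos' hεr
    rw [hmid] at h1
    have hsubset : Ω ⊆ (ball (0 : E N) R ∪ ball q r) ∪ (ball p ε \ (ball ((R - r) • ω) r ∪ ball q r)) := by
      rintro x ((hx | hx) | hx)
      · exact Or.inl (Or.inl hx)
      · by_cases h2 : x ∈ ball (0 : E N) R ∪ ball q r
        · exact Or.inl h2
        · refine Or.inr ⟨hx, ?_⟩
          rintro (h3 | h3)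
          · apply h2; left
            rw [mem_ball_zero_iff]
            rw [mem_ball, dist_eq_norm] at h3
            calc ‖x‖ = ‖(x - (R - r) • ω) + (R - r) • ω‖ := by congr 1; abel
              _ ≤ ‖x - (R - r) • ω‖ + ‖(R - r) • ω‖ := norm_add_le _ _
              _ < r + (R - r) := by
                  rw [norm_smul, hω, mul_one, Real.norm_of_nonneg (by linarith)]
                  linarith
              _ = R := by ring
          · exact h2 (Or.inr h3)
      · exact Or.inl (Or.inr hx)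
    calc volume Ω ≤ volume (ball (0 : E N) R ∪ ball q r) + volume (ball p ε \ (ball ((R - r) • ω) r ∪ ball q r)) :=
          (measure_mono hsubset).trans (measure_union_le _ _)
      _ ≤ ENNReal.ofReal V0 + ENNReal.ofReal (θ ε * ε ^ N) := by
          gcongr
          rw [measure_union hdisj measurableSet_ball, Measure.addHaar_ball_center volume q r, hsum]
      _ = ENNReal.ofReal (V0 + θ ε * ε ^ N) := by
          rw [ENNReal.ofReal_add hV0pos.le]
          exact mul_nonneg (hθ0 ε) hεN.le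
  have hfin : volume Ω ≠ ⊤ := ne_top_of_le_ne_top ENNReal.ofReal_ne_top hupper
  set v : ℝ := (volume Ω).toReal with hv
  have hvv : volume Ω = ENNReal.ofReal v := (ENNReal.ofReal_toReal hfin).symm
  have hvlow : V0 ≤ v := by
    have := ENNReal.toReal_mono hfin hlow
    rwa [ENNReal.toReal_ofReal hV0pos.le] at this
  have hvpos : 0 < v := lt_of_lt_of_le hV0pos hvlow
  have hvup : v ≤ V0 + θ ε * ε ^ N := by
    have := ENNReal.toReal_mono ENNReal.ofReal_ne_top hupper
    rwa [ENNReal.toReal_ofReal (by have := hθ0 ε; positivity)] at this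
  -- eigenvalue bounds
  have hc1 : 1 - g * ε ^ N ∈ RaySet N 1 Ω := raySet_mono subset_union_left hray
  have hc2 : ∀ c, Λ < c → c ∈ RaySet N 2 Ω := by
    intro c hc
    have h1 : (R / R) ^ 2 < c := by
      rw [div_self hR.ne', one_pow]
      refine lt_of_le_of_lt ?_ hc
      rw [hΛ]
      have : 1 ≤ R / r := by rwa [one_le_div hr]
      nlinarith
    obtain ⟨a, ha, ha0, hca⟩ := raySet_one_elim (ball_ray hN F R hG 0 hR h1)
    obtain ⟨b, hb, hb0, hcb⟩ := raySet_one_elim (ball_ray hN F R hG q hr hc)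
    refine raySet_mono ?_ (raySet_two hdisj ha hb ha0 hb0 hca hcb)
    rintro x (hx | hx)
    · exact Or.inl (Or.inl hx)
    · exact Or.inr hx
  -- scaling
  obtain ⟨s, hs, hsv⟩ : ∃ s : ℝ, 0 < s ∧ s ^ N * v = V0 := by
    refine ⟨(V0 / v) ^ ((N : ℝ)⁻¹), by positivity, ?_⟩
    rw [Real.rpow_inv_natCast_pow (by positivity) (by omega)]
    field_simp
  have hs1 : s ≤ 1 := by
    by_contra h
    push Not at h
    have : 1 < s ^ N := one_lt_pow₀ h (by omega)
    nlinarith
  have hs2 : 1 / s ^ 2 ≤ 1 + θ ε * ε ^ N / V0 := by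
    have h1 : s ^ N ≤ s ^ 2 := pow_le_pow_of_le_one hs.le hs1 hN
    have h2 : 1 / s ^ 2 ≤ 1 / s ^ N := one_div_le_one_div_of_le (by positivity) h1
    have h3 : 1 / s ^ N = v / V0 := by
      rw [← hsv]; field_simp
    rw [h3] at h2
    refine h2.trans ?_
    rw [div_le_iff₀ hV0pos]
    have : (1 + θ ε * ε ^ N / V0) * V0 = V0 + θ ε * ε ^ N := by field_simp
    linarith
  set y : ℝ := θ ε * ε ^ N / V0 with hy
  have hy0 : 0 ≤ y := by have := hθ0 ε; positivity
  have hyF : F0 * y < t * g * ε ^ N := by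
    have h1 : F0 * y = F0 * θ ε / V0 * ε ^ N := by rw [hy]; ring
    rw [h1]
    apply mul_lt_mul_of_pos_right _ hεN
    rw [div_lt_iff₀ hV0pos]
    have := (lt_div_iff₀ hF0pos).1 hθε
    linarith
  -- choose `c₂` slightly above `Λ`
  set A : ℝ := t * (1 - g * ε ^ N) + (1 - t) * Λ with hA
  have hAF : A * (1 + y) < F0 := by
    have : A = F0 - t * g * ε ^ N := by rw [hA, hF0]; ring
    rw [this]
    have h1 : 0 ≤ t * g * ε ^ N * y := by positivity
    nlinarith
  obtain ⟨δ, hδ, hδA⟩ : ∃ δ : ℝ, 0 < δ ∧ (A + (1 - t) * δ) * (1 + y) < F0 := by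
    refine ⟨(F0 - A * (1 + y)) / (2 * (1 + y)), div_pos (by linarith) (by positivity), ?_⟩
    have h1 : (1 - t) * ((F0 - A * (1 + y)) / (2 * (1 + y))) ≤ (F0 - A * (1 + y)) / (2 * (1 + y)) := by
      apply mul_le_of_le_one_left _ (by linarith)
      exact div_nonneg (by linarith) (by positivity)
    have h2 : (F0 - A * (1 + y)) / (2 * (1 + y)) * (1 + y) = (F0 - A * (1 + y)) / 2 := by
      field_simp
    have h3 := mul_le_mul_of_nonneg_right h1 (show (0:ℝ) ≤ 1 + y by positivity)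
    rw [h2] at h3
    nlinarith
  refine ⟨(fun x : E N => s • x) '' Ω, ?_, ?_, _, scale_ray N 1 _ s hs _ hc1, _, scale_ray N 2 _ s hs _ (hc2 (Λ + δ) (by linarith)), ?_⟩
  · have := hΩo.smul₀ hs.ne'
    rwa [← Set.image_smul] at this
  · rw [scale_volume N _ s hs, hvv, ← ENNReal.ofReal_mul (by positivity), hsv, hsum]
  · change _ < F0
    have h1 : t * ((1 - g * ε ^ N) / s ^ 2) + (1 - t) * ((Λ + δ) / s ^ 2) = (A + (1 - t) * δ) * (1 / s ^ 2) := by
      rw [hA]; ring
    rw [h1]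
    have hApos : 0 ≤ A + (1 - t) * δ := by
      have h2 : 0 ≤ 1 - g * ε ^ N := raySet_nonneg N 1 le_rfl Ω _ hc1
      have h3 : 0 ≤ 1 - t := by linarith
      have h4 := mul_nonneg ht0.le h2
      have h5 := mul_nonneg h3 hΛ0.le
      have h6 := mul_nonneg h3 hδ.le
      rw [hA]; linarith
    exact (mul_le_mul_of_nonneg_left hs2 hApos).trans_lt hδA

theorem scale_ball {s r : ℝ} (hs : 0 < s) (hr : 0 < r) :
    ENNReal.ofReal (s ^ N) * volume (ball (0 : E N) r) = volume (ball (0 : E N) (s * r)) := by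
  rw [vol_ball N 0 r hr, vol_ball N 0 (s * r) (by positivity), mul_pow, ENNReal.ofReal_mul (by positivity), mul_assoc]

/-- two tangent balls joined by a small ball beat the two disjoint balls -/
theorem neck (hN : 2 ≤ N) (F : ℝ → ℝ) (R : ℝ) (hG : Ground N F R) {ρ₁ ρ₂ : ℝ} (h2 : 0 < ρ₂) (h12 : ρ₂ ≤ ρ₁)
    {t : ℝ} (ht0 : 0 < t) (ht1 : t ≤ 1) :
    ∃ Ω : Set (E N), IsOpen Ω ∧ volume Ω = volume (ball (0 : E N) ρ₁) + volume (ball (0 : E N) ρ₂) ∧
      ∃ c₁ ∈ RaySet N 1 Ω, ∃ c₂ ∈ RaySet N 2 Ω, t * c₁ + (1 - t) * c₂ < t * (R / ρ₁) ^ 2 + (1 - t) * (R / ρ₂) ^ 2 := by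
  have hR := hG.Rpos
  have h1 : 0 < ρ₁ := h2.trans_le h12
  set s : ℝ := ρ₁ / R with hs'
  have hs : 0 < s := by positivity
  have hr : 0 < ρ₂ / s := by positivity
  have hrR : ρ₂ / s ≤ R := by
    rw [hs', div_div_eq_mul_div, div_le_iff₀ h1]
    nlinarith
  obtain ⟨Ω, hΩ, hvol, c₁, hc₁, c₂, hc₂, hlt⟩ := neck_unit hN F R hG hr hrR ht0 ht1
  refine ⟨(fun x : E N => s • x) '' Ω, ?_, ?_, _, scale_ray N 1 _ s hs _ hc₁, _, scale_ray N 2 _ s hs _ hc₂, ?_⟩
  · have := hΩ.smul₀ hs.ne'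
    rwa [← Set.image_smul] at this
  · have e1 : s * R = ρ₁ := by rw [hs']; field_simp
    have e2 : s * (ρ₂ / s) = ρ₂ := by field_simp
    rw [scale_volume N _ s hs, hvol, mul_add, scale_ball hs hR, scale_ball hs hr, e1, e2]
  · have hs2 : 0 < s ^ 2 := by positivity
    have e1 : t * (c₁ / s ^ 2) + (1 - t) * (c₂ / s ^ 2) = (t * c₁ + (1 - t) * c₂) / s ^ 2 := by ring
    rw [e1, div_lt_iff₀ hs2]
    have e2 : (t * (R / ρ₁) ^ 2 + (1 - t) * (R / ρ₂) ^ 2) * s ^ 2 = t + (1 - t) * (R / (ρ₂ / s)) ^ 2 := by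
      rw [hs']; field_simp
    rw [e2]; exact hlt

/-- radius of the ball of given volume -/
theorem exists_radius (hN : 1 ≤ N) {a : ENNReal} (h0 : a ≠ 0) (h1 : a ≠ ⊤) :
    ∃ ρ : ℝ, 0 < ρ ∧ volume (ball (0 : E N) ρ) = a := by
  have : NeZero N := ⟨by omega⟩
  have hb1pos : 0 < volume (ball (0 : E N) 1) := measure_ball_pos _ _ one_pos
  have hb1fin : volume (ball (0 : E N) 1) ≠ ⊤ := measure_ball_lt_top.ne
  set b : ℝ := (volume (ball (0 : E N) 1)).toReal with hb
  have hbpos : 0 < b := ENNReal.toReal_pos hb1pos.ne' hb1fin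
  have hap : 0 < a.toReal := ENNReal.toReal_pos h0 h1
  refine ⟨(a.toReal / b) ^ ((N : ℝ)⁻¹), by positivity, ?_⟩
  rw [vol_ball N 0 _ (by positivity), Real.rpow_inv_natCast_pow (by positivity) (by omega)]
  rw [← ENNReal.ofReal_toReal hb1fin, ← hb, ← ENNReal.ofReal_mul (by positivity), div_mul_cancel₀ _ hbpos.ne',
    ENNReal.ofReal_toReal h1]

/-- Faber–Krahn for test functions on an open set -/
theorem fk_test (hN : 2 ≤ N) (F : ℝ → ℝ) (R : ℝ) (hG : Ground N F R) {Ω : Set (E N)} {ρ : ℝ} (hρ : 0 < ρ)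
    (hvol : volume Ω ≤ volume (ball (0 : E N) ρ)) {f : E N → ℝ} (hf : IsTest Ω f) :
    (R / ρ) ^ 2 * ∫ x, f x ^ 2 ≤ ∫ x, ‖fderiv ℝ f x‖ ^ 2 :=
  FK.faber_krahn N hN F R hG (hf.1.of_le (by simp)) hf.2.1 hρ
    ((measure_mono ((subset_tsupport _).trans hf.2.2)).trans hvol)

/-- the functional -/
noncomputable def Ft (N : ℕ) (t : ℝ) (Ω : Set (E N)) : ℝ := t * lam N 1 Ω + (1 - t) * lam N 2 Ω

theorem Ft_le {t : ℝ} (ht0 : 0 ≤ t) (ht1 : t ≤ 1) {Ω : Set (E N)} {c₁ c₂ : ℝ} (h1 : c₁ ∈ RaySet N 1 Ω)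
    (h2 : c₂ ∈ RaySet N 2 Ω) : Ft N t Ω ≤ t * c₁ + (1 - t) * c₂ := by
  unfold Ft
  have := lam_le N 1 le_rfl Ω c₁ h1
  have := lam_le N 2 (by norm_num) Ω c₂ h2
  have h3 : 0 ≤ 1 - t := by linarith
  gcongr

/-- a disconnected open set is never minimal -/
theorem not_minimal (hN : 2 ≤ N) {t : ℝ} (ht0 : 0 < t) (ht1 : t ≤ 1) {U V : Set (E N)} (hU : IsOpen U)
    (hV : IsOpen V) (hUn : U.Nonempty) (hVn : V.Nonempty) (hd : Disjoint U V) (hfin : volume (U ∪ V) ≠ ⊤) :
    ∃ Ω : Set (E N), IsOpen Ω ∧ volume Ω = volume (U ∪ V) ∧ Ft N t Ω < Ft N t (U ∪ V) := by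
  have hN1 : 1 ≤ N := by omega
  have : NeZero N := ⟨by omega⟩
  obtain ⟨F, R, hG⟩ := exists_ground N hN
  have hR := hG.Rpos
  have hvol : volume (U ∪ V) = volume U + volume V := measure_union hd hV.measurableSet
  -- WLOG the first eigenvalue of `U` is not larger
  wlog hle : lam N 1 U ≤ lam N 1 V generalizing U V with H
  · have h1 := H hV hU hVn hUn hd.symm (by rwa [union_comm]) (by rw [union_comm, hvol, add_comm]) (le_of_not_ge hle)
    rw [union_comm V U] at h1
    exact h1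
  have hUpos : volume U ≠ 0 := (hU.measure_pos volume hUn).ne'
  have hVpos : volume V ≠ 0 := (hV.measure_pos volume hVn).ne'
  have hUfin : volume U ≠ ⊤ := ne_top_of_le_ne_top hfin (measure_mono subset_union_left)
  have hVfin : volume V ≠ ⊤ := ne_top_of_le_ne_top hfin (measure_mono subset_union_right)
  obtain ⟨a, ha, hav⟩ := exists_radius hN1 hUpos hUfin
  obtain ⟨b, hb, hbv⟩ := exists_radius hN1 hVpos hVfin
  have hUne1 : (RaySet N 1 U).Nonempty := raySet_nonempty N 1 hN1 U hU hUn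
  have hUne2 : (RaySet N 2 U).Nonempty := raySet_nonempty N 2 hN1 U hU hUn
  have hVne1 : (RaySet N 1 V).Nonempty := raySet_nonempty N 1 hN1 V hV hVn
  have hUVne1 : (RaySet N 1 (U ∪ V)).Nonempty := hUne1.mono (raySet_mono subset_union_left)
  have hUVne2 : (RaySet N 2 (U ∪ V)).Nonempty := hUne2.mono (raySet_mono subset_union_left)
  have hlU : (R / a) ^ 2 ≤ lam N 1 U :=
    lam_lower N 1 le_rfl U hU hUn hN1 _ fun f hf => fk_test hN F R hG ha hav.ge hf
  have hlV : (R / b) ^ 2 ≤ lam N 1 V :=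
    lam_lower N 1 le_rfl V hV hVn hN1 _ fun f hf => fk_test hN F R hG hb hbv.ge hf
  have hlUpos : 0 < lam N 1 U := lt_of_lt_of_le (by positivity) hlU
  -- test function inequality on `V` with the constant `lam N 1 V`
  have hVtest : ∀ f : E N → ℝ, IsTest V f → lam N 1 V * ∫ x, f x ^ 2 ≤ ∫ x, ‖fderiv ℝ f x‖ ^ 2 := by
    intro f hf
    by_cases h0 : f = 0
    · subst h0
      have h3 : ∀ x, fderiv ℝ (0 : E N → ℝ) x = 0 := fun x => by simp
      simp [h3]
    · have hcc : FK.CC f := ⟨hf.1.continuous, hf.2.1⟩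
      have hpos : 0 < ∫ x, f x ^ 2 := by
        refine lt_of_le_of_ne (integral_nonneg fun x => sq_nonneg _) fun h => h0 ?_
        have h1 := (integral_eq_zero_iff_of_nonneg (fun x => sq_nonneg (f x)) hcc.sq.int).1 h.symm
        have h2 : (fun x => f x ^ 2) = 0 := (hcc.sq.1.ae_eq_iff_eq volume continuous_zero).1 h1
        funext x
        have := congrFun h2 x
        simpa using this
      have hmem : (∫ x, ‖fderiv ℝ f x‖ ^ 2) / (∫ x, f x ^ 2) ∈ RaySet N 1 V :=
        raySet_one hf h0 (by rw [div_mul_cancel₀ _ hpos.ne'])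
      have := lam_le N 1 le_rfl V _ hmem
      rwa [le_div_iff₀ hpos] at this
  -- lower bounds for the union
  have hlow : ∀ k, 1 ≤ k → (RaySet N k (U ∪ V)).Nonempty → min (lam N k U) (lam N 1 V) ≤ lam N k (U ∪ V) := by
    intro k hk hne
    refine le_csInf hne fun c hc => ?_
    by_contra hcon
    push Not at hcon
    rw [lt_min_iff] at hcon
    have h1 := raySet_split hk hU hV hd hVtest hc hcon.2
    have := lam_le N k hk U c h1
    linarith
  have hlow1 : lam N 1 U ≤ lam N 1 (U ∪ V) := by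
    have := hlow 1 le_rfl hUVne1
    rwa [min_eq_left hle] at this
  have h1t : 0 ≤ 1 - t := by linarith
  rcases le_or_gt (lam N 2 U) (lam N 1 V) with hcase | hcase
  · -- the second component is useless
    have hlow2 : lam N 2 U ≤ lam N 2 (U ∪ V) := by
      have := hlow 2 (by norm_num) hUVne2
      rwa [min_eq_left hcase] at this
    have hFU : Ft N t U ≤ Ft N t (U ∪ V) := by unfold Ft; gcongr
    have hFpos : 0 < Ft N t U := by
      unfold Ft
      have h3 : 0 ≤ lam N 2 U := Real.sInf_nonneg fun c hc => raySet_nonneg N 2 (by norm_num) U c hc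
      have := mul_nonneg h1t h3
      have := mul_pos ht0 hlUpos
      linarith
    -- scale up
    set A : ℝ := (volume U).toReal
    set C : ℝ := (volume (U ∪ V)).toReal
    have hA : 0 < A := ENNReal.toReal_pos hUpos hUfin
    have hAC : A < C := by
      have h3 : C = A + (volume V).toReal := by
        change (volume (U ∪ V)).toReal = _
        rw [hvol, ENNReal.toReal_add hUfin hVfin]
      have := ENNReal.toReal_pos hVpos hVfin
      linarith
    obtain ⟨s, hs, hsv⟩ : ∃ s : ℝ, 0 < s ∧ s ^ N * A = C := by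
      refine ⟨(C / A) ^ ((N : ℝ)⁻¹), Real.rpow_pos_of_pos (div_pos (hA.trans hAC) hA) _, ?_⟩
      rw [Real.rpow_inv_natCast_pow (div_pos (hA.trans hAC) hA).le (by omega)]
      field_simp
    have hs1 : 1 < s := by
      by_contra h
      push Not at h
      have : s ^ N ≤ 1 := pow_le_one₀ hs.le h
      nlinarith
    have hs2 : 1 < s ^ 2 := by nlinarith
    refine ⟨(fun x : E N => s • x) '' U, ?_, ?_, ?_⟩
    · have := hU.smul₀ hs.ne'
      rwa [← Set.image_smul] at this
    · rw [scale_volume N _ s hs, ← ENNReal.ofReal_toReal hUfin, ← ENNReal.ofReal_mul (by positivity), hsv,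
        ENNReal.ofReal_toReal hfin]
    · have hscale : ∀ k, 1 ≤ k → (RaySet N k U).Nonempty → lam N k ((fun x : E N => s • x) '' U) ≤ lam N k U / s ^ 2 := by
        intro k hk hne
        rw [le_div_iff₀ (by positivity)]
        refine le_csInf hne fun c hc => ?_
        rw [← le_div_iff₀ (by positivity)]
        exact lam_le N k hk _ _ (scale_ray N k U s hs c hc)
      have hF2 : Ft N t ((fun x : E N => s • x) '' U) ≤ Ft N t U / s ^ 2 := by
        unfold Ft
        have h3 := mul_le_mul_of_nonneg_left (hscale 1 le_rfl hUne1) ht0.le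
        have h4 := mul_le_mul_of_nonneg_left (hscale 2 (by norm_num) hUne2) h1t
        have e : (t * lam N 1 U + (1 - t) * lam N 2 U) / s ^ 2 = t * (lam N 1 U / s ^ 2) + (1 - t) * (lam N 2 U / s ^ 2) := by ring
        rw [e]; linarith
      have : Ft N t U / s ^ 2 < Ft N t U := by
        rw [div_lt_iff₀ (by positivity)]
        nlinarith
      linarith
  · -- two balls
    have hlow2 : lam N 1 V ≤ lam N 2 (U ∪ V) := by
      have := hlow 2 (by norm_num) hUVne2
      rwa [min_eq_right hcase.le] at this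
    have hFlow : t * lam N 1 U + (1 - t) * lam N 1 V ≤ Ft N t (U ∪ V) := by unfold Ft; gcongr
    rcases le_total b a with hba | hab
    · obtain ⟨Ω, h1, h2, c₁, hc₁, c₂, hc₂, hlt⟩ := neck hN F R hG hb hba ht0 ht1
      refine ⟨Ω, h1, by rw [h2, hav, hbv, hvol], ?_⟩
      refine (Ft_le ht0.le ht1 hc₁ hc₂).trans_lt (hlt.trans_le (le_trans ?_ hFlow))
      gcongr
    · obtain ⟨Ω, h1, h2, c₁, hc₁, c₂, hc₂, hlt⟩ := neck hN F R hG ha hab ht0 ht1
      refine ⟨Ω, h1, by rw [h2, hav, hbv, hvol, add_comm], ?_⟩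
      refine (Ft_le ht0.le ht1 hc₁ hc₂).trans_lt (hlt.trans_le (le_trans ?_ hFlow))
      have h3 : (R / b) ^ 2 ≤ (R / a) ^ 2 := by gcongr
      have h4 : (R / a) ^ 2 ≤ lam N 1 V := hlU.trans hle
      calc t * (R / b) ^ 2 + (1 - t) * (R / a) ^ 2 ≤ t * (R / a) ^ 2 + (1 - t) * (R / a) ^ 2 := by gcongr
        _ ≤ t * lam N 1 U + (1 - t) * lam N 1 V := by gcongr

end Pool.Agent.H793R2.TC
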